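import Pool.Agent.MWC.StmtsB
import Pool.Agent.Helper65_MWC.Checks

/-!
# Row CAB: the clauses 3 and 4 of (a)
-/

namespace Pool.Agent.MWC.H51

open Pool.Agent.Helper14_MV Pool.Agent.Helper2_MV Pool.Agent.MVO Pool.Agent.MWL Pool.Agent.MWA
open Pool.Agent.MWC Pool.Agent.MWC.H65

/-- **CAB** -/
theorem cab (h1 : ArbStmt) (h2 : TycStmt) (h3 : BtlStmt) (h4 : MstStmt) : CabStmt := by
  intro n β hN
  obtain ⟨a1, a2, a3, a4, a5, a6⟩ := h1 false n β hN.lr
  have T := h2 false n β hN.iso hN.cl hN.lr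
  obtain ⟨B1, B2, B3⟩ := h3 false n β hN.iso hN.cl hN.lr
  have hJ2 := a6 hN.iso
  have e1 : tab false 1 [0, 2] 0 = [Bit.G] := by decide
  have e2 : tab false 2 [0, 2, 0] 2 = [Bit.E] := by decide
  have e3 : tab false 1 [1, 2] 0 = [Bit.D 0] := by decide
  have e4 : tab false 1 [2, 0] 1 = [Bit.E] := by decide
  have TG : HB false n β Bit.G →
      (Bt β 1 (rep [0, 2]) (rep [1, 1]) 1 ↔ Bt β 1 (rep [2, 2]) (rep [1, 1]) 1) := by
    intro hG
    apply T 1 1 0 [0, 2] [2, 2] [1, 1] (by decide) (by decide) (by decide) (by decide)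
    · rw [e1]
      intro κ hκ
      rw [List.mem_singleton] at hκ
      rw [hκ]
      exact hG
    · decide
  refine ⟨?_, ?_⟩
  · intro hB
    by_contra hcon
    rw [not_or] at hcon
    obtain ⟨hJ3, hX⟩ := hcon
    apply h4 false n β hN 3 3 [] [Bit.J 3, Bit.J 2, Bit.G, Bit.E] (Bit.J 3) [1, 2, 3]
      [(1, 1, [1, 1], [0, 2])] [0, 1, 1, 1] [1, 0, 0, 1] [[0, 1, 1, 1]] [[1, 0, 0, 1]]
      [[0, 1, 1, 1], [0, 1, 0, 2], [0, 2, 0, 2], [0, 1, 1, 2], [0, 1, 2, 2], [0, 2, 2, 2]]
      [[1, 0, 0, 1]] cA3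
    · intro μ hμ
      exact absurd hμ List.not_mem_nil
    · intro μ hμ
      simp only [List.mem_cons, List.not_mem_nil, or_false] at hμ
      rcases hμ with rfl | rfl | rfl | rfl
      · exact hJ3
      · exact hJ2
      · intro hG
        exact hX (B3 1 1 _ _ ((TG hG).2 (B3 1 1 _ _ hB)))
      · intro hE
        have t1 := (T 2 2 2 [0, 2, 0] [0, 2, 2] [1, 0, 1] (by decide) (by decide) (by decide)
          (by decide) (by
            rw [e2]
            intro κ hκ
            rw [List.mem_singleton] at hκ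
            rw [hκ]
            exact hE) (by decide)).1
          (B1 2 2 [0, 2, 0] [1, 0, 1] (by decide) (by decide) (by decide) (by decide))
        have t2 := B2 2 1 2 1 [0, 2, 2] [1, 0, 1] [0, 2] [1, 1] [0, 1, 1] (by decide)
          (by decide) (by decide) (by decide) (by decide) (by decide) (by decide) (by decide)
          (by decide) t1
        exact hX (B3 1 1 _ _ t2)
    · intro q hq
      rw [List.mem_singleton] at hq
      subst hq
      exact hX
  · intro hG
    by_contra hcon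
    rw [not_or] at hcon
    obtain ⟨hJ3, hX⟩ := hcon
    have hX2 : ¬ Bt β 1 (rep [2, 2]) (rep [1, 1]) 1 := by
      intro h
      exact hX (B3 1 1 _ _ ((TG hG).2 h))
    have hD : HB false n β (Bit.D 0) := a3 hG
    have hX1 : ¬ Bt β 1 (rep [1, 2]) (rep [1, 1]) 1 := by
      intro h
      apply hX2
      apply (T 1 1 0 [1, 2] [2, 2] [1, 1] (by decide) (by decide) (by decide) (by decide) _ _).1 h
      · rw [e3]
        intro κ hκ
        rw [List.mem_singleton] at hκ
        rw [hκ]
        exact hD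
      · decide
    apply h4 false n β hN 2 2 [] [Bit.J 3, Bit.J 2, Bit.E] (Bit.J 3) [0, 1, 2]
      [(1, 1, [1, 1], [0, 2]), (1, 1, [1, 1], [1, 2]), (1, 1, [1, 1], [2, 2])] [1, 1, 1]
      [1, 0, 1] [[1, 1, 1]] [[1, 0, 1]]
      [[1, 1, 1], [0, 0, 2], [1, 0, 2], [2, 0, 2], [0, 1, 2], [1, 1, 2], [0, 2, 2], [1, 2, 2],
        [2, 2, 2]] [[1, 0, 1]] cA4
    · intro μ hμ
      exact absurd hμ List.not_mem_nil
    · intro μ hμ
      simp only [List.mem_cons, List.not_mem_nil, or_false] at hμ
      rcases hμ with rfl | rfl | rfl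
      · exact hJ3
      · exact hJ2
      · intro hE
        apply hX2
        apply (T 1 1 1 [2, 0] [2, 2] [1, 1] (by decide) (by decide) (by decide) (by decide)
          _ _).1 (B1 1 1 [2, 0] [1, 1] (by decide) (by decide) (by decide) (by decide))
        · rw [e4]
          intro κ hκ
          rw [List.mem_singleton] at hκ
          rw [hκ]
          exact hE
        · decide
    · intro q hq
      simp only [List.mem_cons, List.not_mem_nil, or_false] at hq
      rcases hq with rfl | rfl | rfl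
      · exact hX
      · exact fun h => hX1 (B3 1 1 _ _ h)
      · exact fun h => hX2 (B3 1 1 _ _ h)

end Pool.Agent.MWC.H51
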